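import Pool.Agent.W519.E.Stm

set_option autoImplicit false
set_option linter.unusedSectionVars false

namespace Pool.Agent.W654.RK

open Pool.Agent.W537.TT Pool.Agent.W519.E MvPolynomial

noncomputable section

section gen

variable {ι : Type} [Fintype ι] [DecidableEq ι]

/-- semilinear action on matrices -/
def ac (σ : ℂ ≃+* ℂ) (π : Equiv.Perm ι) (M : Matrix ι ι ℂ) : Matrix ι ι ℂ :=
  fun a b => σ (M (π.symm a) (π.symm b))

theorem ac_mul (σ : ℂ ≃+* ℂ) (π : Equiv.Perm ι) (M N : Matrix ι ι ℂ) :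
    ac σ π (M * N) = ac σ π M * ac σ π N := by
  ext a b
  rw [Matrix.mul_apply]
  simp only [ac]
  rw [Matrix.mul_apply, map_sum, ← Equiv.sum_comp π.symm]
  simp only [map_mul]

theorem ac_one (σ : ℂ ≃+* ℂ) (π : Equiv.Perm ι) : ac σ π (1 : Matrix ι ι ℂ) = 1 := by
  ext a b
  simp only [ac, Matrix.one_apply]
  by_cases h : a = b
  · subst h; simp
  · have : π.symm a ≠ π.symm b := fun e => h (π.symm.injective e)
    simp [h, this]

theorem ac_symm (σ : ℂ ≃+* ℂ) (π : Equiv.Perm ι) (M : Matrix ι ι ℂ) :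
    ac σ.symm π.symm (ac σ π M) = M := by
  ext a b
  simp [ac]

theorem ac_symm' (σ : ℂ ≃+* ℂ) (π : Equiv.Perm ι) (M : Matrix ι ι ℂ) :
    ac σ π (ac σ.symm π.symm M) = M := by
  ext a b
  simp [ac]

theorem ac_unit (σ : ℂ ≃+* ℂ) (π : Equiv.Perm ι) {M : Matrix ι ι ℂ} (hM : IsUnit M) :
    IsUnit (ac σ π M) := by
  have h1 : ac σ π M * ac σ π M⁻¹ = 1 := by
    rw [← ac_mul, mul_inv' hM, ac_one]
  have h2 : ac σ π M⁻¹ * ac σ π M = 1 := by
    rw [← ac_mul, inv_mul' hM, ac_one]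
  exact ⟨⟨_, _, h1, h2⟩, rfl⟩

theorem ac_inv (σ : ℂ ≃+* ℂ) (π : Equiv.Perm ι) {M : Matrix ι ι ℂ} (hM : IsUnit M) :
    ac σ π M⁻¹ = (ac σ π M)⁻¹ := by
  have h2 : ac σ π M⁻¹ * ac σ π M = 1 := by
    rw [← ac_mul, inv_mul' hM, ac_one]
  exact (Matrix.inv_eq_left_inv h2).symm

/-- the restriction to the algebraic numbers -/
def resQ (σ : ℂ ≃+* ℂ) : Qb →+* Qb :=
  ((σ : ℂ →+* ℂ).comp (algebraMap Qb ℂ)).codRestrict Qb (fun x => by
    have h := Qb_alg x
    rw [mem_algebraicClosure_iff]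
    exact h.algHom ((σ : ℂ →+* ℂ).toRatAlgHom))

theorem resQ_coe (σ : ℂ ≃+* ℂ) (a : Qb) : algebraMap Qb ℂ (resQ σ a) = σ (algebraMap Qb ℂ a) :=
  rfl

theorem aeval_ac (σ : ℂ ≃+* ℂ) (π : Equiv.Perm ι) (p : MvPolynomial (ι × ι) Qb) :
    ∃ p' : MvPolynomial (ι × ι) Qb, ∀ M : Matrix ι ι ℂ,
      aeval (vc (ac σ π M)) p' = σ (aeval (vc M) p) := by
  refine ⟨rename (fun q : ι × ι => (π q.1, π q.2)) (map (resQ σ) p), fun M => ?_⟩
  rw [aeval_rename]
  induction p using MvPolynomial.induction_on with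
  | C a =>
    rw [map_C, algHom_C, algHom_C, resQ_coe]
  | add p q hp hq => rw [map_add, map_add, map_add, map_add, hp, hq]
  | mul_X p i hp =>
    rw [map_mul, map_mul, map_mul, map_mul, hp, map_X, aeval_X, aeval_X]
    congr 1
    simp [vc, ac]

theorem clos_ac (σ : ℂ ≃+* ℂ) (π : Equiv.Perm ι) {C x : Matrix ι ι ℂ}
    (hx : vc x ∈ clos (vc C)) : vc (ac σ π x) ∈ clos (vc (ac σ π C)) := by
  intro p hp
  obtain ⟨p', hp'⟩ := aeval_ac σ.symm π.symm p
  have h1 := hp' (ac σ π C)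
  rw [ac_symm, hp, map_zero] at h1
  have h2 := hx p' h1
  have h3 := hp' (ac σ π x)
  rw [ac_symm, h2] at h3
  exact (map_eq_zero_iff _ σ.symm.injective).1 h3.symm

/-- conjugate derivation -/
def conjD (σ : ℂ ≃+* ℂ) (D : Derivation ℤ ℂ ℂ) : Derivation ℤ ℂ ℂ :=
  Derivation.mk'
    ({ toFun := fun x => σ (D (σ.symm x))
       map_add' := fun x y => by simp
       map_smul' := fun c x => by simp } : ℂ →ₗ[ℤ] ℂ)
    (by
      intro a b
      change σ (D (σ.symm (a * b))) = a • σ (D (σ.symm b)) + b • σ (D (σ.symm a))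
      rw [map_mul, Derivation.leibniz]
      simp)

theorem conjD_apply (σ : ℂ ≃+* ℂ) (D : Derivation ℤ ℂ ℂ) (x : ℂ) :
    conjD σ D (σ x) = σ (D x) := by
  change σ (D (σ.symm (σ x))) = _
  rw [RingEquiv.symm_apply_apply]

theorem log_ac (σ : ℂ ≃+* ℂ) (π : Equiv.Perm ι) {C y : Matrix ι ι ℂ} (hC : IsUnit C)
    (hy : y ∈ logSpace C) : ac σ π y ∈ logSpace (ac σ π C) := by
  obtain ⟨D, rfl⟩ := hy
  refine ⟨conjD σ D, ?_⟩
  rw [ac_mul, ac_inv σ π hC]
  congr 1
  ext a b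
  simp only [ac, Matrix.map_apply, conjD_apply]

/-- the set of the invertible points is stable -/
theorem stab {C : Matrix ι ι ℂ} (hC : IsUnit C) (hL : AlgSpan (logSpace C))
    (σ : ℂ ≃+* ℂ) (π : Equiv.Perm ι) (h1 : ∀ y ∈ logSpace C, ac σ π y ∈ logSpace C)
    (h2 : ∀ y ∈ logSpace C, ac σ.symm π.symm y ∈ logSpace C) (x y z : Matrix ι ι ℂ)
    (hx : IsUnit x) (hy : IsUnit y) (hz : IsUnit z) (hxc : vc x ∈ clos (vc C))
    (hyc : vc y ∈ clos (vc C)) (hzc : vc z ∈ clos (vc C)) :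
    vc (x * ac σ π (y⁻¹ * z)) ∈ clos (vc C) := by
  have hT := torsor_of_algSpan hC hL
  obtain ⟨z0, hz0c, hz0u⟩ := exists_alg_matrix hC
  have hz0 : IsUnit z0 := mC_unit hz0u
  have hz0i : IsUnit z0⁻¹ := (Matrix.isUnit_nonsing_inv_iff).2 hz0
  have hinv : mC z0⁻¹ = (mC z0)⁻¹ := mC_inv hz0
  set h0 : Matrix ι ι ℂ := mC z0⁻¹ * C with hh0
  have hh0u : IsUnit h0 := (unit_mC hz0i).mul hC
  have hlog0 : logSpace h0 = logSpace C := logSpace_mul z0⁻¹ hz0i hC
  have hto0 : ∀ v : Matrix ι ι ℂ, vc (mC z0 * v) ∈ clos (vc C) → vc v ∈ clos (vc h0) := by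
    intro v hv p hp
    have e1 : aeval (vc C) (lsub z0⁻¹ p) = 0 := by
      rw [aeval_lsub]; exact hp
    have e2 := hv _ e1
    rw [aeval_lsub] at e2
    change aeval (vc (mC z0⁻¹ * (mC z0 * v))) p = 0 at e2
    rwa [← Matrix.mul_assoc, hinv, inv_mul' hz0u, Matrix.one_mul] at e2
  have hfrom0 : ∀ v : Matrix ι ι ℂ, vc v ∈ clos (vc h0) → vc (mC z0 * v) ∈ clos (vc C) := by
    intro v hv p hp
    have e1 : aeval (vc h0) (lsub z0 p) = 0 := by
      rw [aeval_lsub]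
      change aeval (vc (mC z0 * h0)) p = 0
      rw [hh0, ← Matrix.mul_assoc, hinv, mul_inv' hz0u, Matrix.one_mul]
      exact hp
    have e2 := hv _ e1
    rw [aeval_lsub] at e2
    exact e2
  have hone0 : vc (1 : Matrix ι ι ℂ) ∈ clos (vc h0) := by
    refine hto0 1 ?_
    rw [Matrix.mul_one]
    exact hz0c
  set h1' : Matrix ι ι ℂ := ac σ π h0 with hh1
  have hh1u : IsUnit h1' := ac_unit σ π hh0u
  have hone1 : vc (1 : Matrix ι ι ℂ) ∈ clos (vc h1') := by
    have := clos_ac σ π hone0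
    rwa [ac_one] at this
  have hlog1 : logSpace h1' = logSpace h0 := by
    apply le_antisymm
    · intro v hv
      have e1 := log_ac σ.symm π.symm hh1u hv
      rw [hh1, ac_symm, hlog0] at e1
      have e2 := h1 _ e1
      rw [ac_symm'] at e2
      rw [hlog0]
      exact e2
    · intro v hv
      rw [hlog0] at hv
      have e1 := h2 _ hv
      rw [← hlog0] at e1
      have e2 := log_ac σ π hh0u e1
      rwa [ac_symm'] at e2
  have halg : algLog h1' = algLog h0 := by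
    unfold algLog
    rw [hlog1]
  have hL1 : AlgSpan (logSpace h1') := by rw [hlog1, hlog0]; exact hL
  let J1 : Ideal (MvPolynomial (ι × ι) Qb) :=
    RingHom.ker (aeval (vc h1') : MvPolynomial (ι × ι) Qb →ₐ[Qb] ℂ)
  let J2 : Ideal (MvPolynomial (ι × ι) Qb) :=
    RingHom.ker (aeval (vc h0) : MvPolynomial (ι × ι) Qb →ₐ[Qb] ℂ)
  have hone : ∀ p : MvPolynomial (ι × ι) Qb, aeval (vc (1 : Matrix ι ι ℂ)) p = 0 →
      aeval (vc (1 : Matrix ι ι Qb)) p = 0 := by
    intro p hp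
    rw [← mC_one, aeval_mC] at hp
    exact (map_eq_zero_iff _ (algebraMap Qb ℂ).injective).1 hp
  have hle : ∀ p : MvPolynomial (ι × ι) Qb, aeval (vc h0) p = 0 → aeval (vc h1') p = 0 := by
    intro p hp
    refine minimal hh1u hL1 (w := 1) isUnit_one (J1 ⊔ J2) (fun q hq => ?_) (fun q hq => ?_)
      (fun x hx q hq => ?_) p ?_
    · exact (le_sup_left : J1 ≤ J1 ⊔ J2) hq
    · obtain ⟨q1, hq1, q2, hq2, rfl⟩ := Submodule.mem_sup.1 hq
      rw [map_add, hone _ (hone1 q1 hq1), hone _ (hone0 q2 hq2), add_zero]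
    · obtain ⟨q1, hq1, q2, hq2, rfl⟩ := Submodule.mem_sup.1 hq
      rw [map_add]
      refine Submodule.add_mem_sup ?_ ?_
      · exact van_stable hh1u hx hq1
      · rw [halg] at hx
        exact van_stable hh0u hx hq2
    · exact (le_sup_right : J2 ≤ J1 ⊔ J2) hp
  have hst : ∀ v : Matrix ι ι ℂ, vc v ∈ clos (vc h0) → vc (ac σ π v) ∈ clos (vc h0) := by
    intro v hv p hp
    exact clos_ac σ π hv p (hle p hp)
  -- conclusion
  have g1 : vc (mC z0 * (y⁻¹ * z)) ∈ clos (vc C) := by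
    rw [← Matrix.mul_assoc]
    exact hT (mC z0) y z hz0u hy hz hz0c hyc hzc
  have g2 := hfrom0 _ (hst _ (hto0 _ g1))
  have hyi : IsUnit y⁻¹ := (Matrix.isUnit_nonsing_inv_iff).2 hy
  have g3 : IsUnit (mC z0 * ac σ π (y⁻¹ * z)) := hz0u.mul (ac_unit σ π (hyi.mul hz))
  have g4 := hT x (mC z0) _ hx hz0u g3 hxc hz0c g2
  rwa [Matrix.mul_assoc, ← Matrix.mul_assoc (mC z0)⁻¹, inv_mul' hz0u, Matrix.one_mul] at g4

end gen

section V

variable {S : Type} [Fintype S] [DecidableEq S]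

theorem big_mul (x y : V S) : big (x * y) = big x * big y := by
  ext a b
  rw [Matrix.mul_apply, Fintype.sum_option]
  rcases a with _ | ⟨s, i⟩ <;> rcases b with _ | ⟨t, j⟩
  · simp [big]
  · simp [big]
  · simp [big]
  · simp only [big, zero_mul, zero_add]
    rw [Fintype.sum_prod_type]
    by_cases h : s = t
    · subst h
      rw [if_pos rfl, Finset.sum_eq_single s]
      · simp [Matrix.mul_apply]
      · intro u _ hu
        apply Finset.sum_eq_zero
        intro k _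
        simp [Ne.symm hu]
      · simp
    · rw [if_neg h]
      symm
      apply Finset.sum_eq_zero
      intro u _
      apply Finset.sum_eq_zero
      intro k _
      by_cases h1 : s = u
      · subst h1
        simp [h]
      · simp [h1]

theorem big_one : big (1 : V S) = 1 := by
  ext a b
  rcases a with _ | ⟨s, i⟩ <;> rcases b with _ | ⟨t, j⟩
  · simp [big]
  · simp [big]
  · simp [big]
  · simp only [big, Matrix.one_apply, Option.some.injEq, Prod.mk.injEq, Prod.snd_one,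
      Pi.one_apply]
    by_cases h : s = t <;> simp [h]

theorem inv_mul_V {y : V S} (hy : Inv y) : y⁻¹ * y = 1 := by
  refine Prod.ext ?_ ?_
  · exact inv_mul_cancel₀ hy.1
  · funext s
    exact Matrix.nonsing_inv_mul _ (isUnit_iff_ne_zero.2 (hy.2 s))

theorem mul_inv_V {y : V S} (hy : Inv y) : y * y⁻¹ = 1 := by
  refine Prod.ext ?_ ?_
  · exact mul_inv_cancel₀ hy.1
  · funext s
    exact Matrix.mul_nonsing_inv _ (isUnit_iff_ne_zero.2 (hy.2 s))

theorem big_unit {y : V S} (hy : Inv y) : IsUnit (big y) :=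
  ⟨⟨big y, big y⁻¹, by rw [← big_mul, mul_inv_V hy, big_one],
    by rw [← big_mul, inv_mul_V hy, big_one]⟩, rfl⟩

theorem big_inv {y : V S} (hy : Inv y) : big y⁻¹ = (big y)⁻¹ := by
  have : big y⁻¹ * big y = 1 := by rw [← big_mul, inv_mul_V hy, big_one]
  exact (Matrix.inv_eq_left_inv this).symm

/-- the permutation of the index set -/
def pm (g : (ℂ ≃+* ℂ) →* Equiv.Perm S) (σ : ℂ ≃+* ℂ) : Equiv.Perm (Option (S × Fin 2)) :=
  Equiv.optionCongr ((g σ).prodCongr (Equiv.refl _))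

theorem pm_none (g : (ℂ ≃+* ℂ) →* Equiv.Perm S) (σ : ℂ ≃+* ℂ) :
    (pm g σ).symm none = none := rfl

theorem pm_some (g : (ℂ ≃+* ℂ) →* Equiv.Perm S) (σ : ℂ ≃+* ℂ) (s : S) (i : Fin 2) :
    (pm g σ).symm (some (s, i)) = some ((g σ).symm s, i) := rfl

theorem big_tw (g : (ℂ ≃+* ℂ) →* Equiv.Perm S) (σ : ℂ ≃+* ℂ) (x : V S) :
    big (tw g σ x) = ac σ (pm g σ) (big x) := by
  ext a b
  rcases a with _ | ⟨s, i⟩ <;> rcases b with _ | ⟨t, j⟩
  · simp only [ac, pm_none, big, tw]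
  · simp only [ac, pm_none, pm_some, big, map_zero]
  · simp only [ac, pm_none, pm_some, big, map_zero]
  · by_cases h : s = t
    · subst h
      simp only [ac, pm_some, big, tw, if_true, Matrix.map_apply]
    · simp only [ac, pm_some, big, tw, EmbeddingLike.apply_eq_iff_eq, if_neg h, map_zero]

theorem pm_symm (g : (ℂ ≃+* ℂ) →* Equiv.Perm S) (σ : ℂ ≃+* ℂ) :
    pm g σ.symm = (pm g σ).symm := by
  have h : g σ.symm = (g σ).symm := map_inv g σ
  unfold pm
  rw [h]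
  rfl

end V

theorem t : Pool.Agent.W519.E.TORB := by
  intro hCLO S _ _ g c hc hL hR σ x y z hx hy hz hxc hyc hzc
  obtain ⟨hA, -, hB⟩ := hCLO S c hc
  have hlog : ∀ σ : ℂ ≃+* ℂ, ∀ v ∈ Pool.Agent.W537.TT.logSpace (big c),
      ac σ (pm g σ) v ∈ Pool.Agent.W537.TT.logSpace (big c) := by
    intro σ v hv
    obtain ⟨u, hu, rfl⟩ := (hB v).1 hv
    rw [← big_tw]
    exact (hB _).2 ⟨_, hR σ u hu, rfl⟩
  rw [hA, big_mul, big_tw, big_mul, big_inv hy]
  refine stab (big_unit hc) hL σ (pm g σ) (hlog σ) (fun v hv => ?_) (big x) (big y) (big z)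
    (big_unit hx) (big_unit hy) (big_unit hz) ((hA x).1 hxc) ((hA y).1 hyc) ((hA z).1 hzc)
  rw [← pm_symm]
  exact hlog σ.symm v hv

end

end Pool.Agent.W654.RK
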